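import Pool.Agent.Work.MP_8e7914_an.Main

/-!
A convolution-type operator on `L²(0,1)` at distance at most `1/2` from the identity that
satisfies the rank-one condition everywhere and has no left factorization.
-/

open MeasureTheory Set

namespace Pool.Agent.Results.MP_8e7914_an.Accretive

/-- The complex space `L²(0,1)`. -/
abbrev L2 : Type := Lp ℂ 2 (volume.restrict (Ioo (0 : ℝ) 1))

/-- The projection `P_ξ f = χ_[0,ξ] f`. -/
noncomputable def proj (ξ : ℝ) (f : L2) : L2 :=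
  ((Lp.memLp f).indicator (measurableSet_Icc : MeasurableSet (Icc (0 : ℝ) ξ))).toLp
    ((Icc (0 : ℝ) ξ).indicator f)

section Abstract

variable {H : Type} [NormedAddCommGroup H] [InnerProductSpace ℂ H] [CompleteSpace H]

/-- Upper triangular for the family `P`: `T P_ξ = P_ξ T P_ξ` for all `ξ ∈ [0,1]`. -/
def Upper (P : ℝ → H → H) (T : H →L[ℂ] H) : Prop :=
  ∀ ξ ∈ Icc (0 : ℝ) 1, ∀ f : H, T (P ξ f) = P ξ (T (P ξ f))

/-- Lower triangular: the adjoint is upper triangular. -/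
def Lower (P : ℝ → H → H) (T : H →L[ℂ] H) : Prop := Upper P (ContinuousLinearMap.adjoint T)

/-- `R` restricted to the range of the projection `Q` is a two-sided inverse of `Q S Q` there. -/
def IsSectionInverse (Q : H → H) (S R : H →L[ℂ] H) : Prop :=
  ∀ f : H, Q f = f → Q (R f) = R f ∧ Q (S (R f)) = f ∧ R (Q (S f)) = f

/-- `S = S₋ S₊` with boundedly invertible factors, `S₋` lower and `S₊⁻¹` upper triangular. -/
def WeakFactor (P : ℝ → H → H) (S : H →L[ℂ] H) : Prop :=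
  ∃ Sm Sp Sm' Sp' : H →L[ℂ] H, Sm * Sm' = 1 ∧ Sm' * Sm = 1 ∧ Sp * Sp' = 1 ∧ Sp' * Sp = 1 ∧
    Lower P Sm ∧ Upper P Sp' ∧ S = Sm * Sp

/-- `S` is normal and `‖S - I‖ ≤ 1/2`. -/
def NormalNearOne (S : H →L[ℂ] H) : Prop := IsStarNormal S ∧ ‖S - 1‖ ≤ 1 / 2

end Abstract

/-- `S f = d/dx ∫₀¹ s(x - t) f(t) dt`: the integral is an absolutely continuous function of
`x ∈ [0,1]` whose derivative is `S f` almost everywhere. -/
def IsConv (s : ℝ → ℂ) (S : L2 →L[ℂ] L2) : Prop :=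
  ∀ f : L2, AbsolutelyContinuousOnInterval (fun x => ∫ t in (0 : ℝ)..1, s (x - t) * f t) 0 1 ∧
    ∀ᵐ x : ℝ, x ∈ Ioo (0 : ℝ) 1 →
      HasDerivAt (fun x => ∫ t in (0 : ℝ)..1, s (x - t) * f t) (S f x) x

/-- The matrix `B(ξ)` built from `u = S_ξ⁻¹ P_ξ M`, `v = S_ξ⁻¹ P_ξ 1` and `N(x) = -s(-x)`. -/
noncomputable def Bmat (s : ℝ → ℂ) (ξ : ℝ) (u v : L2) : Matrix (Fin 2) (Fin 2) ℂ :=
  !![∫ x in (0 : ℝ)..ξ, u x, ∫ x in (0 : ℝ)..ξ, u x * -s (-x);
    ∫ x in (0 : ℝ)..ξ, v x, ∫ x in (0 : ℝ)..ξ, v x * -s (-x)]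

/-- The complex matrix function `B` is absolutely continuous and continuously differentiable on
`[0,1]`, entry by entry, and its derivative has rank one at every point. -/
def RankOneDeriv (B : ℝ → Matrix (Fin 2) (Fin 2) ℂ) : Prop :=
  ∃ B' : ℝ → Matrix (Fin 2) (Fin 2) ℂ,
    (∀ i j, AbsolutelyContinuousOnInterval (fun ξ => B ξ i j) 0 1 ∧
      Continuous (fun ξ => B' ξ i j) ∧
      ∀ x ∈ Icc (0 : ℝ) 1, HasDerivWithinAt (fun ξ => B ξ i j) (B' x i j) (Icc 0 1) x) ∧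
    ∀ x, (B' x).rank = 1

section Aux

open Pool.Agent.Work.MP_8e7914_an

lemma proj_eq (ξ : ℝ) (f : L2) : proj ξ f = P ξ f := by
  apply Lp.ext
  have hne : ∀ᵐ x ∂(volume : Measure ℝ), x ≠ ξ := by simp [ae_iff]
  filter_upwards [((Lp.memLp f).indicator
    (measurableSet_Icc : MeasurableSet (Icc (0 : ℝ) ξ))).coeFn_toLp, coe_P ξ f,
    ae_restrict_mem measurableSet_Ioo, ae_restrict_of_ae hne] with x h1 h2 h3 h4
  rw [proj, h1, h2]
  by_cases hx : x < ξ
  · rw [indicator_of_mem (show x ∈ Icc 0 ξ from ⟨h3.1.le, hx.le⟩),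
      indicator_of_mem (show x ∈ Iio ξ from hx)]
  · rw [indicator_of_notMem (fun h : x ∈ Icc 0 ξ => hx (lt_of_le_of_ne h.2 h4)),
      indicator_of_notMem (show x ∉ Iio ξ from hx)]

lemma ac_of_eq {F g : ℝ → ℂ} (hg : IntervalIntegrable g volume 0 1) {c : ℂ}
    (h : ∀ x ∈ Icc (0 : ℝ) 1, F x = c + ∫ y in (0 : ℝ)..x, g y) :
    AbsolutelyContinuousOnInterval F 0 1 := by
  have h1 := hg.norm.absolutelyContinuousOnInterval_intervalIntegral (c := 0) (by simp)
  rw [absolutelyContinuousOnInterval_iff] at h1 ⊢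
  intro ε hε
  obtain ⟨δ, hδ, H⟩ := h1 ε hε
  refine ⟨δ, hδ, fun E hE hs => lt_of_le_of_lt (Finset.sum_le_sum fun i hi => ?_) (H E hE hs)⟩
  obtain ⟨ha, hb⟩ := hE.1 i hi
  have ia := hg.mono_set (uIcc_subset_uIcc left_mem_uIcc ha)
  have ib := hg.mono_set (uIcc_subset_uIcc left_mem_uIcc hb)
  rw [uIcc_of_le zero_le_one] at ha hb
  rw [h _ ha, h _ hb, dist_add_left, dist_eq_norm, Real.dist_eq,
    intervalIntegral.integral_interval_sub_left ia ib,
    intervalIntegral.integral_interval_sub_left ia.norm ib.norm]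
  exact intervalIntegral.norm_integral_le_abs_integral_norm

lemma intervalIntegrable_L2 (f : L2) : IntervalIntegrable f volume 0 1 := by
  rw [intervalIntegrable_iff_integrableOn_Ioo_of_le zero_le_one]
  exact (Lp.memLp f).integrable one_le_two

lemma isConv : IsConv ss (1 + D cc) := by
  intro f
  have h : ∀ x ∈ Icc (0 : ℝ) 1, (∫ t in (0 : ℝ)..1, ss (x - t) * f t) =
      (∫ t in (0 : ℝ)..1, ss (-t) * f t) + ∫ y in (0 : ℝ)..x, ((1 + D cc) f) y := by
    intro x hx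
    rw [conv_identity f hx]; ring
  refine ⟨ac_of_eq (intervalIntegrable_L2 _) h, ?_⟩
  filter_upwards [(intervalIntegrable_L2 ((1 + D cc) f)).ae_hasDerivAt_integral] with x h1 hx
  have h2 := (h1 (by rw [uIcc_of_le zero_le_one]; exact Ioo_subset_Icc_self hx) 0
    left_mem_uIcc).const_add (∫ t in (0 : ℝ)..1, ss (-t) * f t)
  refine h2.congr_of_eventuallyEq ?_
  filter_upwards [Icc_mem_nhds hx.1 hx.2] with y hy using h y hy

open ComplexConjugate in
lemma normal : IsStarNormal (1 + D cc) := by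
  have h : ContinuousLinearMap.adjoint (D cc) = D fun m => conj (cc m) :=
    ((ContinuousLinearMap.eq_adjoint_iff _ _).2 (inner_D_adj adm_cc.one)).symm
  have hc : Commute (D fun m => conj (cc m)) (D cc) := by
    ext1 f
    apply ext_e
    intro m
    simp only [mul_apply_eq_comp]
    rw [inner_D adm_cc.conj.one, inner_D adm_cc.one, inner_D adm_cc.one, inner_D adm_cc.conj.one]
    ring
  refine ⟨?_⟩
  rw [star_add, star_one, ContinuousLinearMap.star_eq_adjoint, h]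
  exact (Commute.one_left _).add_left ((Commute.one_right _).add_right hc)

end Aux

open Pool.Agent.Work.MP_8e7914_an ComplexConjugate in
theorem result : ∃ (σ s : ℝ → ℂ) (S : L2 →L[ℂ] L2) (M one : L2) (R : ℝ → L2 →L[ℂ] L2),
    Continuous σ ∧ Function.Periodic σ 1 ∧ (∀ x, s x = (if 0 < x then 1 else 0) + σ x) ∧
    IsConv s S ∧ NormalNearOne S ∧
    (∀ ξ ∈ Icc (0 : ℝ) 1, IsSectionInverse (proj ξ) S (R ξ)) ∧
    (∀ᵐ x : ℝ, x ∈ Ioo (0 : ℝ) 1 → M x = s x ∧ one x = 1) ∧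
    RankOneDeriv (fun ξ => Bmat s ξ (R ξ (proj ξ M)) (R ξ (proj ξ one))) ∧
    ¬WeakFactor proj S := by
  have hK := small_D adm_cc.1
  have hio : ∀ F : BB, ∀ᵐ x ∂(volume : Measure ℝ), x ∈ Ioo (0 : ℝ) 1 → io F x = F x :=
    fun F => (ae_restrict_iff' measurableSet_Ioo).1 (coe_io F)
  let φ : Fin 2 → HH := ![io MM, e 0]
  let ψ : Fin 2 → HH := ![e 0, io (-AA 0)]
  have hφ : ∀ i, ∃ a, 0 ≤ a ∧ Dat a (φ i) := by
    intro i
    fin_cases i
    · exact ⟨1, zero_le_one, dat_MM⟩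
    · exact ⟨0, le_rfl, dat_e_zero⟩
  have hψ : ∀ i, ∃ a, 0 ≤ a ∧ Dat a (ψ i) := by
    intro i
    fin_cases i
    · exact ⟨0, le_rfl, dat_e_zero⟩
    · exact ⟨1, zero_le_one, dat_AA⟩
  have hN : ∀ ξ ∈ Icc (0 : ℝ) 1, ∀ u : HH, (∫ x in (0 : ℝ)..ξ, (P ξ u) x * (-ss (-x))) =
      inner ℂ (io (-AA 0)) (P ξ u) := by
    intro ξ hξ u
    conv_rhs => rw [← P_P]
    rw [inner_io_P hξ]
    apply integral_congr_mu hξ
    filter_upwards [ae_restrict_mem measurableSet_Ioo] with t ht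
    rw [ss_neg ht.1, mul_comm]
    simp
  let R : ℝ → HH →L[ℂ] HH := fun ξ => P ξ * Ring.inverse (1 + D cc * P ξ)
  have hR : ∀ ξ f, R ξ f = P ξ (sol (D cc) ξ f) := fun ξ f => rfl
  have hRP : ∀ ξ f, R ξ (proj ξ f) = P ξ (sol (D cc) ξ f) := fun ξ f => by
    rw [hR, proj_eq]
    exact sol_unique hK (P_P _ _) (by rw [P_sol hK, P_P])
  let B' : ℝ → Matrix (Fin 2) (Fin 2) ℂ := fun x =>
    Matrix.of fun i j => conj (VV (fun m => conj (cc m)) (ψ j) x x) * VV cc (φ i) x x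
  have hc : ∀ i j, Continuous fun x => B' x i j := by
    intro i j
    obtain ⟨a, ha, ha'⟩ := hφ i
    obtain ⟨b, hb, hb'⟩ := hψ j
    have c1 := continuous_VV adm_cc ha ha'
    have c2 := continuous_VV adm_cc.conj hb hb'
    simp only [B', Matrix.of_apply]
    fun_prop
  have hB : ∀ i j, ∀ ξ ∈ Icc (0 : ℝ) 1,
      Bmat ss ξ (R ξ (proj ξ (io MM))) (R ξ (proj ξ (e 0))) i j =
        0 + ∫ x in (0 : ℝ)..ξ, B' x i j := by
    intro i j ξ hξ
    rw [hRP, hRP, zero_add]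
    fin_cases i <;> fin_cases j
    · change (∫ x in (0 : ℝ)..ξ, (P ξ _) x) = _
      rw [integral_eq_inner hξ, P_P]
      exact form_VV adm_cc zero_le_one le_rfl dat_MM dat_e_zero hξ
    · change (∫ x in (0 : ℝ)..ξ, (P ξ _) x * -ss (-x)) = _
      rw [hN ξ hξ]
      exact form_VV adm_cc zero_le_one zero_le_one dat_MM dat_AA hξ
    · change (∫ x in (0 : ℝ)..ξ, (P ξ _) x) = _
      rw [integral_eq_inner hξ, P_P]
      exact form_VV adm_cc le_rfl le_rfl dat_e_zero dat_e_zero hξ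
    · change (∫ x in (0 : ℝ)..ξ, (P ξ _) x * -ss (-x)) = _
      rw [hN ξ hξ]
      exact form_VV adm_cc le_rfl zero_le_one dat_e_zero dat_AA hξ
  refine ⟨sig, ss, 1 + D cc, io MM, e 0, R, sig.continuous, fun x => ?_, fun x => rfl,
    isConv, ⟨normal, ?_⟩, fun ξ _ f hf => ?_, ?_,
    ⟨B', fun i j => ⟨?_, hc i j, fun x hx => ?_⟩, fun x => ?_⟩, ?_⟩
  · refine HasSum.unique (hasSum_syn_apply summable_dd (x + 1)) ?_
    have h : ∀ m : ℤ, EE m (x + 1) = EE m x := fun m => by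
      rw [← sub_neg_eq_add, EE_sub_arg, EE_neg_arg, EE_at_one, mul_one]
    simp only [h]
    exact hasSum_syn_apply summable_dd x
  · rw [add_sub_cancel_left]
    exact ContinuousLinearMap.opNorm_le_bound _ (by norm_num) hK
  · rw [proj_eq] at hf
    refine ⟨by rw [proj_eq, hR, P_P], by rw [proj_eq, hR, P_sol hK, hf], ?_⟩
    rw [hRP]
    exact (sol_unique hK hf rfl).symm
  · filter_upwards [hio MM, hio (EE 0)] with x a1 a2 hx
    exact ⟨by rw [a1 hx, ss_pos hx.1], by rw [e, a2 hx, EE_zero]⟩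
  · exact ac_of_eq ((hc i j).intervalIntegrable _ _) (hB i j)
  · exact ((((hc i j).integral_hasStrictDerivAt 0 x).hasDerivAt.const_add 0).hasDerivWithinAt).congr
      (hB i j) (hB i j x hx)
  · refine rank_one (fun i => VV cc (φ i) x x)
      (fun j => conj (VV (fun m => conj (cc m)) (ψ j) x x)) (VV_ne_zero adm_cc x x) ?_
    exact (map_ne_zero _).2 (VV_ne_zero adm_cc.conj x x)
  · rintro ⟨Sm, Sp, Sm', Sp', e1, e2, e3, e4, h1, h2, h3⟩
    refine no_factor (ContinuousLinearEquiv.ofUnit ⟨Sm, Sm', e1, e2⟩)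
      (ContinuousLinearEquiv.ofUnit ⟨Sp, Sp', e3, e4⟩) (fun ξ hξ f hf => ?_) (fun ξ hξ f hf => ?_)
      (fun f => congrArg (fun T : L2 →L[ℂ] L2 => T f) h3)
    · have := h2 ξ hξ f
      rw [proj_eq, proj_eq, hf] at this
      exact this.symm
    · refine ext_inner_left ℂ fun g => ?_
      have := h1 ξ hξ g
      rw [proj_eq, proj_eq] at this
      rw [← inner_P, inner_zero_right]
      change inner ℂ (P ξ g) (Sm f) = 0
      rw [← ContinuousLinearMap.adjoint_inner_left, this, inner_P, hf, inner_zero_right]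

end Pool.Agent.Results.MP_8e7914_an.Accretive
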